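import Pool.Agent.Y293.FA.Base
import Pool.Agent.Y293.FA.Stm2

/-!
# The energy estimate for the cylinders
-/

namespace Pool.Agent.Y804.FA

open MeasureTheory Set Filter Topology Pool.Agent.Y293.FA
open scoped ENNReal ComplexConjugate

theorem dir_sub (u v : ℂ) (hu : u ≠ 0) (hv : v ≠ 0) :
    ‖u / (‖u‖ : ℂ) - v / (‖v‖ : ℂ)‖ ≤ 2 * ‖u - v‖ / ‖v‖ := by
  have hu' : 0 < ‖u‖ := norm_pos_iff.mpr hu
  have hv' : 0 < ‖v‖ := norm_pos_iff.mpr hv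
  have huc : (‖u‖ : ℂ) ≠ 0 := by exact_mod_cast hu'.ne'
  have hvc : (‖v‖ : ℂ) ≠ 0 := by exact_mod_cast hv'.ne'
  have e : u / (‖u‖ : ℂ) - v / (‖v‖ : ℂ) =
      (u - v) / (‖v‖ : ℂ) + u * (((‖v‖ - ‖u‖ : ℝ) : ℂ) / ((‖u‖ : ℂ) * (‖v‖ : ℂ))) := by
    push_cast
    field_simp
    ring
  rw [e]
  refine (norm_add_le _ _).trans ?_
  rw [norm_div, norm_mul, norm_div, norm_mul, Complex.norm_real, Complex.norm_real,
    Complex.norm_real, norm_norm, norm_norm, Real.norm_eq_abs]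
  have h1 : |‖v‖ - ‖u‖| ≤ ‖u - v‖ := by
    rw [abs_sub_comm]; exact abs_norm_sub_norm_le u v
  have h2 : ‖u‖ * (|‖v‖ - ‖u‖| / (‖u‖ * ‖v‖)) = |‖v‖ - ‖u‖| / ‖v‖ := by
    field_simp
  rw [h2, ← add_div]
  exact div_le_div_of_nonneg_right (by linarith) hv'.le

theorem tube {ui uj zA g z : ℂ} {R κ : ℝ} (hκ : 0 < κ) (hR : 0 < R) (hzA : κ ≤ ‖zA‖)
    (hzAi : ‖zA - ui‖ ≤ R * ‖g‖) (hui : ui ≠ 0) (huj : uj ≠ 0) (huj2 : ‖uj‖ ≤ 2 * R)
    (hdir : ‖uj / (‖uj‖ : ℂ) - ui / (‖ui‖ : ℂ)‖ ≤ 2 * ‖g‖) (hz : ‖z‖ ≤ R) :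
    |((uj + g * z) * conj zA).im| ≤ ((5 * R + 4 * R ^ 2 / κ) * ‖g‖) * ‖zA‖ := by
  have hzA' : 0 < ‖zA‖ := lt_of_lt_of_le hκ hzA
  have hzA0 : zA ≠ 0 := norm_pos_iff.mp hzA'
  have huj' : 0 < ‖uj‖ := norm_pos_iff.mpr huj
  have hujc : (‖uj‖ : ℂ) ≠ 0 := by exact_mod_cast huj'.ne'
  obtain ⟨d, hd⟩ : ∃ d, zA / (‖zA‖ : ℂ) = d := ⟨_, rfl⟩
  have h1 : ((zA / (‖zA‖ : ℂ)) * conj zA).im = 0 := by
    have e : (zA / (‖zA‖ : ℂ)) * conj zA = ((Complex.normSq zA / ‖zA‖ : ℝ) : ℂ) := by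
      rw [div_mul_eq_mul_div, Complex.mul_conj]; push_cast; rfl
    rw [e, Complex.ofReal_im]
  rw [hd] at h1
  have e : (uj + g * z) * conj zA = g * z * conj zA +
      ((‖uj‖ : ℝ) : ℂ) * ((uj / (‖uj‖ : ℂ) - d) * conj zA) +
      ((‖uj‖ : ℝ) : ℂ) * (d * conj zA) := by
    field_simp
    ring
  have h2 : ((uj + g * z) * conj zA).im = (g * z * conj zA).im +
      ‖uj‖ * ((uj / (‖uj‖ : ℂ) - d) * conj zA).im := by
    rw [e, Complex.add_im, Complex.add_im, Complex.im_ofReal_mul, Complex.im_ofReal_mul, h1,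
      mul_zero, add_zero]
  rw [h2]
  have h3 : |(g * z * conj zA).im| ≤ ‖g‖ * R * ‖zA‖ := by
    refine (Complex.abs_im_le_norm _).trans ?_
    rw [norm_mul, norm_mul, Complex.norm_conj]
    exact mul_le_mul_of_nonneg_right (mul_le_mul_of_nonneg_left hz (norm_nonneg _)) hzA'.le
  have h4 : ‖uj / (‖uj‖ : ℂ) - d‖ ≤ 2 * ‖g‖ + 2 * (R * ‖g‖) / κ := by
    have e2 : uj / (‖uj‖ : ℂ) - d = (uj / (‖uj‖ : ℂ) - ui / (‖ui‖ : ℂ)) +
        (ui / (‖ui‖ : ℂ) - d) := by ring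
    rw [e2]
    refine (norm_add_le _ _).trans (add_le_add hdir ?_)
    rw [← hd]
    refine (dir_sub ui zA hui hzA0).trans ?_
    rw [norm_sub_rev] at hzAi
    apply div_le_div₀ (by positivity) (by linarith) hκ hzA
  have h5 : |((uj / (‖uj‖ : ℂ) - d) * conj zA).im| ≤
      (2 * ‖g‖ + 2 * (R * ‖g‖) / κ) * ‖zA‖ := by
    refine (Complex.abs_im_le_norm _).trans ?_
    rw [norm_mul, Complex.norm_conj]
    exact mul_le_mul_of_nonneg_right h4 hzA'.le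
  refine (abs_add_le _ _).trans ?_
  rw [abs_mul, abs_of_pos huj']
  have h6 : ‖uj‖ * |((uj / (‖uj‖ : ℂ) - d) * conj zA).im| ≤
      2 * R * ((2 * ‖g‖ + 2 * (R * ‖g‖) / κ) * ‖zA‖) :=
    mul_le_mul huj2 h5 (abs_nonneg _) (by positivity)
  have h7 : (5 * R + 4 * R ^ 2 / κ) * ‖g‖ * ‖zA‖ = ‖g‖ * R * ‖zA‖ +
      2 * R * ((2 * ‖g‖ + 2 * (R * ‖g‖) / κ) * ‖zA‖) := by
    field_simp
    ring
  rw [h7]
  linarith

theorem aux_meas (zA : ℂ) (r : ℝ) : MeasurableSet {w : ℂ | |(w * conj zA).im| ≤ r} :=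
  measurableSet_le (by fun_prop) (by fun_prop)

section selfsim

variable {ν : Measure ℂ} [IsProbabilityMeasure ν] {ι : Type} [Fintype ι] [Nonempty ι]
  {u : ι → ℂ} {γ : ℂ}

theorem meas_eq (hν : ν = (Fintype.card ι : ℝ≥0∞)⁻¹ • ∑ i, ν.map (fun z => u i + γ * z))
    (S : Set ℂ) : ν S = (Fintype.card ι : ℝ≥0∞)⁻¹ * ∑ i, (ν.map (fun z => u i + γ * z)) S := by
  conv_lhs => rw [hν]
  rw [Measure.smul_apply, Measure.coe_finsetSum, Finset.sum_apply, smul_eq_mul]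

theorem meas_aff (i : ι) : Measurable (fun z : ℂ => u i + γ * z) := by fun_prop

theorem norm_u_le {R : ℝ} (hν : ν = (Fintype.card ι : ℝ≥0∞)⁻¹ • ∑ i, ν.map (fun z => u i + γ * z))
    (hR : ∀ᵐ z ∂ν, ‖z‖ ≤ R) (hγ : ‖γ‖ ≤ 1) (i : ι) : ‖u i‖ ≤ 2 * R := by
  have h1 : ν {z | ¬ ‖z‖ ≤ R} = 0 := hR
  have hS' : MeasurableSet {z : ℂ | ‖z‖ ≤ R} := measurableSet_le (by fun_prop) (by fun_prop)
  have hS : MeasurableSet {z : ℂ | ¬ ‖z‖ ≤ R} := hS'.compl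
  rw [meas_eq hν] at h1
  have hn : (Fintype.card ι : ℝ≥0∞)⁻¹ ≠ 0 := by
    rw [ENNReal.inv_ne_zero]; exact ENNReal.natCast_ne_top _
  have h2 := (mul_eq_zero.mp h1).resolve_left hn
  have h3 := (Finset.sum_eq_zero_iff.mp h2) i (Finset.mem_univ i)
  rw [Measure.map_apply (meas_aff i) hS] at h3
  have h4 : ∀ᵐ z ∂ν, ‖u i + γ * z‖ ≤ R := h3
  obtain ⟨z, hz1, hz2⟩ := (hR.and h4).exists
  have e : u i = (u i + γ * z) - γ * z := by ring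
  rw [e]
  refine (norm_sub_le _ _).trans ?_
  rw [norm_mul]
  have : ‖γ‖ * ‖z‖ ≤ 1 * R := mul_le_mul hγ hz1 (norm_nonneg _) (by norm_num)
  linarith

/-- If many of the cylinders are in a tube then the tube has large measure. -/
theorem card_le {R : ℝ} (hν : ν = (Fintype.card ι : ℝ≥0∞)⁻¹ • ∑ i, ν.map (fun z => u i + γ * z))
    (hR : ∀ᵐ z ∂ν, ‖z‖ ≤ R) {T : Set ℂ} (hT : MeasurableSet T) {c : ℝ} (hc : 0 ≤ c)
    (hνT : ν T ≤ ENNReal.ofReal c) (J : Finset ι)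
    (hJ : ∀ j ∈ J, ∀ z, ‖z‖ ≤ R → u j + γ * z ∈ T) :
    (Fintype.card ι : ℝ)⁻¹ * (J.card : ℝ) ≤ c := by
  classical
  have h1 : ∀ j ∈ J, (ν.map (fun z => u j + γ * z)) T = 1 := by
    intro j hj
    rw [Measure.map_apply (meas_aff j) hT]
    rw [← mem_ae_iff_prob_eq_one ((meas_aff j) hT)]
    filter_upwards [hR] with z hz
    exact hJ j hj z hz
  have h2 : (J.card : ℝ≥0∞) ≤ ∑ i, (ν.map (fun z => u i + γ * z)) T := by
    calc (J.card : ℝ≥0∞) = ∑ j ∈ J, (ν.map (fun z => u j + γ * z)) T := by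
          rw [Finset.sum_congr rfl h1]; simp
      _ ≤ _ := Finset.sum_le_sum_of_subset (Finset.subset_univ J)
  have h3 : (Fintype.card ι : ℝ≥0∞)⁻¹ * (J.card : ℝ≥0∞) ≤ ENNReal.ofReal c := by
    refine le_trans ?_ hνT
    rw [meas_eq hν]
    gcongr
  have h4 : (Fintype.card ι : ℝ≥0∞)⁻¹ * (J.card : ℝ≥0∞) =
      ENNReal.ofReal ((Fintype.card ι : ℝ)⁻¹ * (J.card : ℝ)) := by
    rw [ENNReal.ofReal_mul (by positivity), ENNReal.ofReal_inv_of_pos (by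
      exact_mod_cast Fintype.card_pos), ENNReal.ofReal_natCast, ENNReal.ofReal_natCast]
  rw [h4] at h3
  exact (ENNReal.ofReal_le_ofReal_iff hc).mp h3

end selfsim

theorem measurable_pe (e : ℂ) : Measurable (pe e) := by
  unfold pe
  fun_prop

/-- The estimate for one cylinder. -/
theorem one_cyl (hP : S_PERT) (hS : S_SCALE) (hL : S_LIN) {R κ : ℝ} (hR : 0 < R) (hκ : 0 < κ)
    {ν : Measure ℂ} [IsProbabilityMeasure ν] (hνR : ∀ᵐ z ∂ν, ‖z‖ ≤ R) {γ ui : ℂ} (hγ : γ ≠ 0)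
    (hui : κ / 2 ≤ ‖ui‖) {a b : ℝ} (ha : 0 < a) (hab : a ≤ b) :
    dd a b (ν.map fun z => ‖ui + γ * z‖) ≤
      3 * (‖γ‖⁻¹ * dd (a / ‖γ‖) (b / ‖γ‖)
        (ν.map (pe ((conj γ / (‖γ‖ : ℂ)) * (ui / (‖ui‖ : ℂ)))))) +
      12 * (8 * R ^ 2 * ‖γ‖ ^ 2 / κ) / a ^ 2 := by
  have hg : 0 < ‖γ‖ := norm_pos_iff.mpr hγ
  have hu : 0 < ‖ui‖ := by linarith
  have hu0 : ui ≠ 0 := norm_pos_iff.mp hu
  obtain ⟨e, he⟩ : ∃ e, (conj γ / (‖γ‖ : ℂ)) * (ui / (‖ui‖ : ℂ)) = e := ⟨_, rfl⟩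
  rw [he]
  have hb : 0 < b := by linarith
  have hm : Measurable (pe e) := measurable_pe e
  have hkey : ∀ z : ℂ, ‖γ‖ * pe e z = (γ * z * conj ui).re / ‖ui‖ := by
    intro z
    have e1 : z * conj e = ((‖γ‖ * ‖ui‖ : ℝ) : ℂ)⁻¹ * (γ * z * conj ui) := by
      rw [← he, map_mul, map_div₀, map_div₀, Complex.conj_conj, Complex.conj_ofReal,
        Complex.conj_ofReal]
      push_cast
      field_simp
    unfold pe
    rw [e1, ← Complex.ofReal_inv, Complex.re_ofReal_mul]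
    field_simp
  have h1 := hP ν (fun z => ‖ui + γ * z‖) (fun z => ‖ui‖ + ‖γ‖ * pe e z) (by fun_prop)
    (by fun_prop) (8 * R ^ 2 * ‖γ‖ ^ 2 / κ) (by
      filter_upwards [hνR] with z hz
      rw [hkey z]
      have h2 := hL ui (γ * z) hu0
      have h3 : ‖ui + γ * z‖ - (‖ui‖ + (γ * z * conj ui).re / ‖ui‖) =
          ‖ui + γ * z‖ - ‖ui‖ - (γ * z * conj ui).re / ‖ui‖ := by ring
      rw [h3]
      refine h2.trans ?_
      rw [norm_mul]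
      have h4 : 4 * (‖γ‖ * ‖z‖) ^ 2 ≤ 4 * (‖γ‖ * R) ^ 2 := by
        have : ‖γ‖ * ‖z‖ ≤ ‖γ‖ * R := mul_le_mul_of_nonneg_left hz hg.le
        have := pow_le_pow_left₀ (by positivity) this 2
        linarith
      have h5 : 4 * (‖γ‖ * R) ^ 2 / ‖ui‖ ≤ 4 * (‖γ‖ * R) ^ 2 / (κ / 2) :=
        div_le_div_of_nonneg_left (by positivity) (by positivity) hui
      calc 4 * (‖γ‖ * ‖z‖) ^ 2 / ‖ui‖ ≤ 4 * (‖γ‖ * R) ^ 2 / ‖ui‖ :=
            div_le_div_of_nonneg_right h4 hu.le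
        _ ≤ _ := h5
        _ = _ := by field_simp; ring) a b ha hab
  have h2 : IsProbabilityMeasure (ν.map (pe e)) := Measure.isProbabilityMeasure_map hm.aemeasurable
  have h3 := hS (ν.map (pe e)) ‖γ‖ ‖ui‖ a b hg ha hb
  rw [Measure.map_map (by fun_prop) hm] at h3
  have h4 : ((fun t : ℝ => ‖ui‖ + ‖γ‖ * t) ∘ pe e) = fun z => ‖ui‖ + ‖γ‖ * pe e z := rfl
  rw [h4] at h3
  rw [h3] at h1
  exact h1

theorem est : S_PERT → S_SCALE → S_AVG → S_LIN → S_EST := by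
  classical
  intro hP hS hA hL R κ K hR hκ hK
  obtain ⟨C2, hC2⟩ : ∃ C2 : ℝ, 5 * R + 4 * R ^ 2 / κ = C2 := ⟨_, rfl⟩
  have hC2p : 0 < C2 := by rw [← hC2]; positivity
  obtain ⟨K', hK'⟩ : ∃ K' : ℝ, K * C2 = K' := ⟨_, rfl⟩
  have hK'p : 0 < K' := by rw [← hK']; positivity
  refine ⟨9 * K' + 72 * Real.pi * R * K' + 96 * R ^ 2 / κ, by positivity, ?_⟩
  intro ν _ hνR ι _ _ u γ hγ hγ1 hγκ hν A hAκ hAt a b Q ha hab hQ hθ
  have hg : 0 < ‖γ‖ := norm_pos_iff.mpr hγ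
  have hgc : (‖γ‖ : ℂ) ≠ 0 := by exact_mod_cast hg.ne'
  have hn : (0:ℝ) < Fintype.card ι := by exact_mod_cast Fintype.card_pos
  have hRHS : 0 ≤ (9 * K' + 72 * Real.pi * R * K' + 96 * R ^ 2 / κ) *
      (Q / ‖γ‖ + ‖γ‖ ^ 2 / a ^ 2) := by positivity
  by_cases h0 : ∃ j0, ∃ z ∈ A, ‖z - u j0‖ ≤ R * ‖γ‖
  swap
  · push Not at h0
    rw [Finset.sum_eq_zero]
    · positivity
    · intro i _
      rw [if_neg]
      rintro ⟨z, hz, hz2⟩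
      exact absurd hz2 (not_le.mpr (h0 i z hz))
  obtain ⟨j0, hj0⟩ := h0
  obtain ⟨idx, hidx⟩ : ∃ idx : ι → ι, idx = fun i =>
    if ∃ z ∈ A, ‖z - u i‖ ≤ R * ‖γ‖ then i else j0 := ⟨_, rfl⟩
  have hact : ∀ i, ∃ z ∈ A, ‖z - u (idx i)‖ ≤ R * ‖γ‖ := by
    intro i
    rw [hidx]
    simp only
    split_ifs with h
    · exact h
    · exact hj0
  have hidx1 : ∀ i, (∃ z ∈ A, ‖z - u i‖ ≤ R * ‖γ‖) → idx i = i := by
    intro i hi
    rw [hidx]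
    simp only
    rw [if_pos hi]
  have hlow : ∀ i, κ / 2 ≤ ‖u (idx i)‖ := by
    intro i
    obtain ⟨z, hz, hz2⟩ := hact i
    have h1 := hAκ z hz
    have h2 : ‖z‖ ≤ ‖z - u (idx i)‖ + ‖u (idx i)‖ := by
      have := norm_add_le (z - u (idx i)) (u (idx i))
      rwa [sub_add_cancel] at this
    nlinarith
  have hne : ∀ i, u (idx i) ≠ 0 := fun i => norm_pos_iff.mp (by have := hlow i; linarith)
  obtain ⟨e, he⟩ : ∃ e : ι → ℂ, e = fun i =>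
    (conj γ / (‖γ‖ : ℂ)) * (u (idx i) / (‖u (idx i)‖ : ℂ)) := ⟨_, rfl⟩
  have hcn : ‖conj γ / (‖γ‖ : ℂ)‖ = 1 := by
    rw [norm_div, Complex.norm_conj, Complex.norm_real, norm_norm, div_self hg.ne']
  have he1 : ∀ i, ‖e i‖ = 1 := by
    intro i
    rw [he]
    simp only
    rw [norm_mul, hcn, norm_div, Complex.norm_real, norm_norm,
      div_self (norm_pos_iff.mpr (hne i)).ne', one_mul]
  have hed : ∀ i j, ‖e j - e i‖ =
      ‖u (idx j) / (‖u (idx j)‖ : ℂ) - u (idx i) / (‖u (idx i)‖ : ℂ)‖ := by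
    intro i j
    rw [he]
    simp only
    rw [← mul_sub, norm_mul, hcn, one_mul]
  obtain ⟨p, hp⟩ : ∃ p : ι → ℝ, p = fun i =>
    if ∃ z ∈ A, ‖z - u i‖ ≤ R * ‖γ‖ then (Fintype.card ι : ℝ)⁻¹ else 0 := ⟨_, rfl⟩
  have hp0 : ∀ i, 0 ≤ p i := by
    intro i
    rw [hp]
    simp only
    split_ifs
    · positivity
    · exact le_rfl
  have hhyp : ∀ i, ∑ j, (if ‖e j - e i‖ ≤ 2 * ‖γ‖ then p j else 0) ≤ K' * ‖γ‖ := by
    intro i
    obtain ⟨zA, hzA, hzA2⟩ := hact i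
    have hzAκ := hAκ zA hzA
    obtain ⟨J, hJ⟩ : ∃ J : Finset ι, J = Finset.univ.filter (fun j =>
      (∃ z ∈ A, ‖z - u j‖ ≤ R * ‖γ‖) ∧ ‖e j - e i‖ ≤ 2 * ‖γ‖) := ⟨_, rfl⟩
    have h1 : ∑ j, (if ‖e j - e i‖ ≤ 2 * ‖γ‖ then p j else 0) =
        (Fintype.card ι : ℝ)⁻¹ * (J.card : ℝ) := by
      have h2 : ∀ j, (if ‖e j - e i‖ ≤ 2 * ‖γ‖ then p j else 0) =
          if ((∃ z ∈ A, ‖z - u j‖ ≤ R * ‖γ‖) ∧ ‖e j - e i‖ ≤ 2 * ‖γ‖) then
            (Fintype.card ι : ℝ)⁻¹ else 0 := by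
        intro j
        rw [hp]
        simp only
        by_cases c1 : ‖e j - e i‖ ≤ 2 * ‖γ‖
        · by_cases c2 : ∃ z ∈ A, ‖z - u j‖ ≤ R * ‖γ‖
          · rw [if_pos c1, if_pos c2, if_pos ⟨c2, c1⟩]
          · rw [if_pos c1, if_neg c2, if_neg (fun h => c2 h.1)]
        · rw [if_neg c1, if_neg (fun h => c1 h.2)]
      rw [Finset.sum_congr rfl (fun j _ => h2 j), ← Finset.sum_filter, Finset.sum_const,
        nsmul_eq_mul, ← hJ, mul_comm]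
    rw [h1]
    have hT := hAt zA hzA (C2 * ‖γ‖) (by positivity)
    have h3 := card_le hν hνR (aux_meas zA (C2 * ‖γ‖ * ‖zA‖)) (c := K * (C2 * ‖γ‖)) (by positivity)
      hT J (by
        intro j hj z hz
        rw [hJ, Finset.mem_filter] at hj
        obtain ⟨-, hj1, hj2⟩ := hj
        have hjj := hidx1 j hj1
        rw [hed i j, hjj] at hj2
        have hnj := hne j
        rw [hjj] at hnj
        have := tube hκ hR hzAκ hzA2 (hne i) hnj (norm_u_le hν hνR hγ1 j) hj2 hz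
        rw [hC2] at this
        exact this)
    rw [← hK', mul_assoc]
    exact h3
  have hmain := hA ν R hR hνR ι p hp0 e he1 ‖γ‖ K' (a / ‖γ‖) (b / ‖γ‖) Q hg hγ1 hK'p.le
    (by positivity) (div_le_div_of_nonneg_right hab hg.le) hQ
    (by
      intro i
      refine le_trans (le_of_eq ?_) (hhyp i)
      exact Finset.sum_congr rfl (fun j _ => by congr)) hθ
  have hterm : ∀ i, (if ∃ z ∈ A, ‖z - u i‖ ≤ R * ‖γ‖ then
      dd a b (ν.map fun z => ‖u i + γ * z‖) else 0) ≤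
      (Fintype.card ι * (3 * ‖γ‖⁻¹)) * (p i * dd (a / ‖γ‖) (b / ‖γ‖) (ν.map (pe (e i)))) +
        12 * (8 * R ^ 2 * ‖γ‖ ^ 2 / κ) / a ^ 2 := by
    intro i
    split_ifs with hi
    · have hl := hlow i
      rw [hidx1 i hi] at hl
      have h1 := one_cyl hP hS hL hR hκ hνR hγ hl ha hab
      have h2 : e i = (conj γ / (‖γ‖ : ℂ)) * (u i / (‖u i‖ : ℂ)) := by
        rw [he]
        simp only
        rw [hidx1 i hi]
      have h3 : p i = (Fintype.card ι : ℝ)⁻¹ := by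
        rw [hp]
        simp only
        rw [if_pos hi]
      rw [h2, h3]
      refine h1.trans (le_of_eq ?_)
      field_simp
    · have h1 := dd_nonneg (a / ‖γ‖) (b / ‖γ‖) (ν.map (pe (e i)))
      have h2 := hp0 i
      positivity
  have hsum := Finset.sum_le_sum (fun i (_ : i ∈ Finset.univ) => hterm i)
  rw [Finset.sum_add_distrib, ← Finset.mul_sum, Finset.sum_const, Finset.card_univ,
    nsmul_eq_mul] at hsum
  have hsum2 : (∑ i, (if ∃ z ∈ A, ‖z - u i‖ ≤ R * ‖γ‖ then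
      dd a b (ν.map fun z => ‖u i + γ * z‖) else 0)) ≤
      (Fintype.card ι : ℝ) * ((9 * K' + 72 * Real.pi * R * K' + 96 * R ^ 2 / κ) *
        (Q / ‖γ‖ + ‖γ‖ ^ 2 / a ^ 2)) := by
    refine hsum.trans ?_
    have h1 := mul_le_mul_of_nonneg_left hmain
      (by positivity : 0 ≤ (Fintype.card ι : ℝ) * (3 * ‖γ‖⁻¹))
    have h2 : (Fintype.card ι : ℝ) * (3 * ‖γ‖⁻¹) *
        (K' * (3 * Q + 24 * Real.pi * R * ‖γ‖ / (a / ‖γ‖) ^ 2)) =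
        (Fintype.card ι : ℝ) * (9 * K' * (Q / ‖γ‖) + 72 * Real.pi * R * K' * (‖γ‖ ^ 2 / a ^ 2)) := by
      field_simp
      ring
    rw [h2] at h1
    have h3 : (Fintype.card ι : ℝ) * (12 * (8 * R ^ 2 * ‖γ‖ ^ 2 / κ) / a ^ 2) =
        (Fintype.card ι : ℝ) * (96 * R ^ 2 / κ * (‖γ‖ ^ 2 / a ^ 2)) := by ring
    have h4 : (Fintype.card ι : ℝ) * (9 * K' * (Q / ‖γ‖) +
        72 * Real.pi * R * K' * (‖γ‖ ^ 2 / a ^ 2)) +
        (Fintype.card ι : ℝ) * (96 * R ^ 2 / κ * (‖γ‖ ^ 2 / a ^ 2)) ≤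
        (Fintype.card ι : ℝ) * ((9 * K' + 72 * Real.pi * R * K' + 96 * R ^ 2 / κ) *
        (Q / ‖γ‖ + ‖γ‖ ^ 2 / a ^ 2)) := by
      rw [← mul_add]
      apply mul_le_mul_of_nonneg_left _ hn.le
      have e1 : 0 ≤ Q / ‖γ‖ := by positivity
      have e2 : 0 ≤ ‖γ‖ ^ 2 / a ^ 2 := by positivity
      have e3 : 0 ≤ 72 * Real.pi * R * K' * (Q / ‖γ‖) := by positivity
      have e4 : 0 ≤ 96 * R ^ 2 / κ * (Q / ‖γ‖) := by positivity
      have e5 : 0 ≤ 9 * K' * (‖γ‖ ^ 2 / a ^ 2) := by positivity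
      nlinarith
    refine le_trans ?_ h4
    rw [← h3]
    exact add_le_add h1 le_rfl
  refine le_trans (le_of_eq ?_) hsum2
  exact Finset.sum_congr rfl (fun i _ => by congr)

end Pool.Agent.Y804.FA
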